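import Pool.Agent.Helper77.RL.Goals2
import Pool.Agent.Helper40.RD.TRF

/-!
# Project RL (MP_fc6b1e_nt), packet EF1: the extension at a prime above a completely split prime
-/

namespace Pool.Agent.Helper2.RL

open NumberField Polynomial Module IsDedekindDomain
open Pool.Agent.Helper51.RP Pool.Agent.Helper77.RL
open Pool.Agent.Helper40.RS (bel gw gw_inj efg bel_smul lies)
open Pool.Agent.Helper40.RD (valW ordW bel_of_above)
open scoped Pointwise

section

variable {K M : Type} [Field K] [NumberField K] [Field M] [NumberField M] [Algebra K M]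
  [IsGalois K M]

/-- A prime with trivial decomposition group has `e f = 1`. -/
theorem ef_free (w : HeightOneSpectrum (𝓞 M)) (hf : FreeP K w) :
    w.asIdeal.ramificationIdx (𝓞 K) * w.asIdeal.inertiaDeg (𝓞 K) = 1 := by
  have h1 := efg (K := K) w
  have h2 : finrank K M ≤ ((bel K w).asIdeal.primesOver (𝓞 M)).ncard := by
    rw [← IsGalois.card_aut_eq_finrank K M, ← Nat.card_coe_set_eq]
    have hfin : Finite ((bel K w).asIdeal.primesOver (𝓞 M)) :=
      (IsDedekindDomain.primesOver_finite (bel K w).asIdeal (𝓞 M))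
    refine Nat.card_le_card_of_injective
      (fun g : M ≃ₐ[K] M => (⟨g • w.asIdeal, (gw g w).isPrime, ?_⟩ :
        (bel K w).asIdeal.primesOver (𝓞 M))) ?_
    · have : bel K (gw g w) = bel K w := bel_smul g w (gw g w) rfl
      rw [← this]
      exact lies (K := K) (gw g w)
    · intro g g' h
      apply gw_inj w hf
      apply HeightOneSpectrum.ext
      exact congrArg Subtype.val h
  have h3 : 0 < finrank K M := finrank_pos
  have h5 : w.asIdeal.ramificationIdx (𝓞 K) * w.asIdeal.inertiaDeg (𝓞 K) ≠ 0 := by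
    intro h0
    rw [h0, mul_zero] at h1
    omega
  by_contra hne
  have h6 : 2 ≤ w.asIdeal.ramificationIdx (𝓞 K) * w.asIdeal.inertiaDeg (𝓞 K) := by omega
  have h7 := Nat.mul_le_mul h2 h6
  rw [h1] at h7
  omega

/-- The residue field of a prime with `f = 1` is the residue field of the prime below. -/
theorem residue_surj (w : HeightOneSpectrum (𝓞 M)) (hf : w.asIdeal.inertiaDeg (𝓞 K) = 1)
    (y : 𝓞 M) : ∃ x : 𝓞 K, y - algebraMap (𝓞 K) (𝓞 M) x ∈ w.asIdeal := by
  have hw : (bel K w).asIdeal.IsMaximal := (bel K w).isMaximal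
  have hW : w.asIdeal.IsMaximal := w.isMaximal
  have : w.asIdeal.LiesOver (bel K w).asIdeal := inferInstance
  let _ : Field (𝓞 K ⧸ (bel K w).asIdeal) := Ideal.Quotient.field _
  have hfin : w.asIdeal.inertiaDeg (𝓞 K) =
      finrank (𝓞 K ⧸ (bel K w).asIdeal) (𝓞 M ⧸ w.asIdeal) := by
    rw [← Ideal.inertiaDeg'_eq_inertiaDeg (bel K w).asIdeal w.asIdeal,
      Ideal.inertiaDeg'_algebraMap]
  rw [hf] at hfin
  have hne : (Ideal.Quotient.mk w.asIdeal 1 : 𝓞 M ⧸ w.asIdeal) ≠ 0 := by
    rw [map_one]
    intro h0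
    have : Nontrivial (𝓞 M ⧸ w.asIdeal) := Ideal.Quotient.nontrivial_iff.2 hW.ne_top
    exact one_ne_zero h0
  obtain ⟨c, hc⟩ := (finrank_eq_one_iff_of_nonzero' _ hne).1 hfin.symm (Ideal.Quotient.mk _ y)
  obtain ⟨x, rfl⟩ := Ideal.Quotient.mk_surjective c
  refine ⟨x, ?_⟩
  rw [← Ideal.Quotient.eq, ← hc, map_one, Algebra.smul_def, mul_one]
  rfl

end

theorem l_ef1 : L_EF1 := by
  intro p _ n K M L M' _ _ _ _ _ _ _ _ _ _ _ _ _ _ _ S W w V hw hV hfree
  have hgal : IsGalois K M' := S.gal
  have hgalL : IsGalois K L := S.galL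
  have hgalM : IsGalois M M' := IsGalois.tower_top_of_isGalois K M M'
  have hFree : FreeP M W := by
    intro g hg
    set g₁ : M' ≃ₐ[K] M' := g.restrictScalars K with hg₁
    set h : L ≃ₐ[K] L := g₁.restrictNormal L with hh
    have hcom : ∀ y : L, algebraMap L M' (h y) = g₁ (algebraMap L M' y) :=
      fun y => AlgEquiv.restrictNormal_commutes g₁ L y
    obtain rfl := bel_of_above hV
    have he : (bel L W).asIdeal.ramificationIdx' W.asIdeal ≠ 0 := by
      rw [Ideal.ramificationIdx'_eq_ramificationIdx _ _ (bel L W).ne_bot]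
      have hgalL' : IsGalois L M' := IsGalois.tower_top_of_isGalois K L M'
      have h1 := efg (K := L) W
      intro h0
      rw [h0, zero_mul, mul_zero] at h1
      have h3 : 0 < finrank L M' := finrank_pos
      omega
    have h1 : h = 1 := by
      apply hfree
      intro y
      have h2 : W.valuation M' (algebraMap L M' (h y)) = W.valuation M' (algebraMap L M' y) := by
        rw [hcom]
        exact hg _
      rw [valW, valW] at h2
      exact (pow_left_inj₀ zero_le zero_le he).1 h2
    have h2 : g₁ = 1 := by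
      apply S.gen
      · intro x
        exact g.commutes x
      · intro y
        rw [← hcom, h1]
        rfl
    ext x
    have h3 := congrArg (fun f : M' ≃ₐ[K] M' => f x) h2
    exact h3
  have hef := ef_free (K := M) W hFree
  obtain rfl := bel_of_above hw
  constructor
  · intro x
    rw [ordW, Ideal.ramificationIdx'_eq_ramificationIdx _ _ (bel M W).ne_bot,
      Nat.eq_one_of_mul_eq_one_right hef]
    simp
  · intro y
    exact residue_surj W (Nat.eq_one_of_mul_eq_one_left hef) y

end Pool.Agent.Helper2.RL
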