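import Pool.Agent.Helper18.RL.Goals
import Pool.Agent.Helper51.RG.OddCyc

set_option autoImplicit false

/-! Packet RL-OCY: a set without long odd cycles and triangles is bipartite. -/

namespace Pool.Agent.Helper2.RL

open Finset SimpleGraph Pool.Agent.Helper18.RL

theorem pth_of_path {V : Type} [Fintype V] [DecidableEq V] {G : SimpleGraph V} {R : V → V → Prop}
    (hG : ∀ x y, G.Adj x y → R x y) {u v : V} (p : G.Walk u v) (hp : p.IsPath) :
    Pth R p.support.toFinset u v := by
  induction p with
  | nil => simpa using Pth.one (R := R) _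
  | @cons u v w h p ih =>
    rw [Walk.cons_isPath_iff] at hp
    rw [Walk.support_cons, List.toFinset_cons]
    exact Pth.cons (hG _ _ h) (by simpa using hp.2) (ih hp.1)

theorem gocy : G_OCY := by
  classical
  intro V _ _ R X hsym hirr hLO htri
  let H : SimpleGraph V :=
    { Adj := fun x y => x ∈ X ∧ y ∈ X ∧ R x y
      symm := ⟨fun x y h => ⟨h.2.1, h.1, hsym _ _ h.2.2⟩⟩
      loopless := ⟨fun x h => hirr _ h.2.2⟩ }
  have hHR : ∀ x y, H.Adj x y → R x y := fun x y h => h.2.2
  by_cases hcol : H.Colorable 2
  · obtain ⟨C⟩ := hcol
    refine ⟨X.filter (fun x => C x = 0), X.filter (fun x => ¬ C x = 0), ?_, ?_, ?_, ?_⟩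
    · exact filter_union_filter_not_eq _ _
    · exact disjoint_filter_filter_not _ _ _
    · intro x hx y hy hR
      rw [mem_filter] at hx hy
      exact C.valid (show H.Adj x y from ⟨hx.1, hy.1, hR⟩) (hx.2.trans hy.2.symm)
    · intro x hx y hy hR
      rw [mem_filter] at hx hy
      refine C.valid (show H.Adj x y from ⟨hx.1, hy.1, hR⟩) ?_
      have h1 := hx.2
      have h2 := hy.2
      generalize C x = i at *
      generalize C y = j at *
      fin_cases i <;> fin_cases j <;> simp_all
  · exfalso
    rw [SimpleGraph.two_colorable_iff_forall_loop_even] at hcol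
    push Not at hcol
    obtain ⟨u, w, hw⟩ := hcol
    rw [Nat.not_even_iff_odd] at hw
    obtain ⟨v, c, hc, hodd, -⟩ := Pool.Agent.Helper51.RG.exists_odd_cycle _ w rfl hw
    have h3 := hc.three_le_length
    cases c with
    | nil => simp at h3
    | @cons _ b _ h p =>
      rw [Walk.cons_isCycle_iff] at hc
      have hP := pth_of_path hHR p hc.1
      have hcard : p.support.toFinset.card = p.length + 1 := by
        rw [List.toFinset_card_of_nodup hc.1.support_nodup, Walk.length_support]
      have hsub : ∀ {x y : V} (q : H.Walk x y), x ∈ X → ∀ z ∈ q.support, z ∈ X := by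
        intro x y q
        induction q with
        | nil =>
          intro hx z hz
          rw [Walk.support_nil, List.mem_singleton] at hz
          exact hz ▸ hx
        | cons h' q' ih =>
          intro hx z hz
          rw [Walk.support_cons, List.mem_cons] at hz
          rcases hz with rfl | hz
          · exact hx
          · exact ih h'.2.1 z hz
      have hSX : p.support.toFinset ⊆ X := fun z hz =>
        hsub p h.2.1 z (List.mem_toFinset.mp hz)
      rw [Walk.length_cons] at hodd h3
      by_cases h5 : 5 ≤ p.length + 1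
      · exact hLO _ hSX ⟨hcard ▸ hodd, hcard ▸ h5, b, v, hP, h.2.2⟩
      · have hl : p.length = 2 := by
          rcases hodd with ⟨k, hk⟩
          omega
        match p, hl with
        | .cons h1 (.cons h2 .nil), _ =>
          exact htri v h.1 b h.2.1 _ h1.2.1 ⟨h.2.2, h1.2.2, h2.2.2⟩

end Pool.Agent.Helper2.RL
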